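import Pool.Agent.N110.CC.Stm
import Pool.Agent.N165.KM.Basic

/-!
# Perron-Frobenius for closed pointed cones
-/

set_option autoImplicit false

namespace Pool.Agent.N386.CC

open Pool.Agent.N110.CC Filter Topology

section

variable {ρ : ℕ} {C : Set (Fin ρ → ℝ)}

/-- the perturbed map -/
noncomputable def Ge (g : (Fin ρ → ℝ) →ₗ[ℝ] (Fin ρ → ℝ)) (f : (Fin ρ → ℝ) →L[ℝ] ℝ)
    (u : Fin ρ → ℝ) (ε : ℝ) : (Fin ρ → ℝ) →ₗ[ℝ] (Fin ρ → ℝ) :=
  g + (ε • (f : (Fin ρ → ℝ) →ₗ[ℝ] ℝ)).smulRight u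

theorem Ge_apply (g : (Fin ρ → ℝ) →ₗ[ℝ] (Fin ρ → ℝ)) (f : (Fin ρ → ℝ) →L[ℝ] ℝ)
    (u : Fin ρ → ℝ) (ε : ℝ) (x : Fin ρ → ℝ) : Ge g f u ε x = g x + (ε * f x) • u := rfl

/-- the base of the cone -/
def BB (C : Set (Fin ρ → ℝ)) (f : (Fin ρ → ℝ) →L[ℝ] ℝ) : Set (Fin ρ → ℝ) :=
  {x | x ∈ C ∧ f x = 1}

theorem BB_compact (hC : PC C) {f : (Fin ρ → ℝ) →L[ℝ] ℝ} {c : ℝ} (hc : 0 < c)
    (hf : ∀ x ∈ C, c * ‖x‖ ≤ f x) : IsCompact (BB C f) := by
  refine Metric.isCompact_of_isClosed_isBounded ?_ ?_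
  · exact hC.closed.inter (isClosed_eq f.continuous continuous_const)
  · rw [isBounded_iff_forall_norm_le]
    refine ⟨1 / c, fun x hx => ?_⟩
    have h1 := hf x hx.1
    rw [hx.2] at h1
    rw [le_div_iff₀ hc, mul_comm]
    exact h1

theorem f_nonneg {f : (Fin ρ → ℝ) →L[ℝ] ℝ} {c : ℝ} (hc : 0 < c)
    (hf : ∀ x ∈ C, c * ‖x‖ ≤ f x) {x : Fin ρ → ℝ} (hx : x ∈ C) : 0 ≤ f x :=
  (mul_nonneg hc.le (norm_nonneg x)).trans (hf x hx)

theorem f_pos {f : (Fin ρ → ℝ) →L[ℝ] ℝ} {c : ℝ} (hc : 0 < c)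
    (hf : ∀ x ∈ C, c * ‖x‖ ≤ f x) {x : Fin ρ → ℝ} (hx : x ∈ C) (hx0 : x ≠ 0) : 0 < f x :=
  (mul_pos hc (norm_pos_iff.2 hx0)).trans_le (hf x hx)

/-- the eigenvector of the perturbed map -/
theorem eig (hC : PC C) {f : (Fin ρ → ℝ) →L[ℝ] ℝ} {c : ℝ} (hc : 0 < c)
    (hf : ∀ x ∈ C, c * ‖x‖ ≤ f x) {u : Fin ρ → ℝ} (hu : u ∈ C) (hu0 : u ≠ 0)
    (hunit : ∀ x ∈ C, ∃ t : ℝ, 0 ≤ t ∧ t • u - x ∈ C)
    {g : (Fin ρ → ℝ) →ₗ[ℝ] (Fin ρ → ℝ)} (hg : ∀ x ∈ C, g x ∈ C) {ε : ℝ} (hε : 0 < ε) :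
    ∃ (x : Fin ρ → ℝ) (μ : ℝ), x ∈ BB C f ∧ 0 < μ ∧ Ge g f u ε x = μ • x := by
  obtain ⟨G, hG⟩ : ∃ G, G = Ge g f u ε := ⟨_, rfl⟩
  rw [← hG]
  have hGa : ∀ x, G x = g x + (ε * f x) • u := fun x => by rw [hG, Ge_apply]
  have hGC : ∀ x ∈ C, G x ∈ C := by
    intro x hx
    rw [hGa]
    exact hC.add _ (hg x hx) _ (hC.smul _ (mul_nonneg hε.le (f_nonneg hc hf hx)) u hu)
  have hGc : Continuous G := LinearMap.continuous_of_finiteDimensional G
  have hB := BB_compact hC hc hf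
  obtain ⟨M, hM⟩ := hB.exists_bound_of_continuousOn (f := fun x => f (G x))
    (f.continuous.comp hGc).continuousOn
  have hM' : ∀ x ∈ BB C f, f (G x) ≤ M := fun x hx => (le_abs_self _).trans (hM x hx)
  have hfu := f_pos hc hf hu hu0
  have hscale : ∀ x ∈ C, x ≠ 0 → (f x)⁻¹ • x ∈ BB C f := by
    intro x hx hx0
    have h1 := f_pos hc hf hx hx0
    refine ⟨hC.smul _ (inv_nonneg.2 h1.le) x hx, ?_⟩
    rw [map_smul, smul_eq_mul, inv_mul_cancel₀ h1.ne']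
  have hx0 := hscale u hu hu0
  -- the compact set of the admissible pairs
  let P : Set (ℝ × (Fin ρ → ℝ)) := (Set.Icc 0 M ×ˢ BB C f) ∩ {p | G p.2 - p.1 • p.2 ∈ C}
  have hP : IsCompact P := by
    refine (isCompact_Icc.prod hB).inter_right ?_
    refine hC.closed.preimage ?_
    fun_prop
  have hle : ∀ t : ℝ, ∀ x ∈ BB C f, G x - t • x ∈ C → t ≤ M := by
    intro t x hx h
    have h1 := f_nonneg hc hf h
    rw [map_sub, map_smul, hx.2, smul_eq_mul, mul_one] at h1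
    linarith [hM' x hx]
  have hPne : P.Nonempty := by
    refine ⟨(0, (f u)⁻¹ • u), ⟨⟨le_rfl, ?_⟩, hx0⟩, ?_⟩
    · refine hle 0 _ hx0 ?_
      rw [zero_smul, sub_zero]
      exact hGC _ hx0.1
    · show G ((f u)⁻¹ • u) - (0 : ℝ) • ((f u)⁻¹ • u) ∈ C
      rw [zero_smul, sub_zero]
      exact hGC _ hx0.1
  obtain ⟨⟨μ, x⟩, ⟨⟨⟨hμ0, -⟩, hxB⟩, hxC⟩, hmax⟩ := hP.exists_isMaxOn hPne
    (f := fun p => p.1) continuous_fst.continuousOn
  have hmax' : ∀ t : ℝ, 0 ≤ t → ∀ y ∈ BB C f, G y - t • y ∈ C → t ≤ μ := by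
    intro t ht y hy h
    exact hmax (show (t, y) ∈ P from ⟨⟨⟨ht, hle t y hy h⟩, hy⟩, h⟩)
  simp only at hμ0 hxB hxC
  have hxC' : G x - μ • x ∈ C := hxC
  -- the image of the vector
  have hGx : G x ∈ C := hGC x hxB.1
  have hGx0 : G x ≠ 0 := by
    intro h0
    have h1 := hGa x
    rw [h0, hxB.2, mul_one] at h1
    have h2 : -(ε • u) ∈ C := by
      have h3 : -(ε • u) = g x := by
        rw [eq_comm, ← sub_eq_zero, sub_neg_eq_add]
        exact h1.symm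
      rw [h3]
      exact hg x hxB.1
    have h3 := hC.pointed _ (hC.smul ε hε.le u hu) h2
    rcases smul_eq_zero.1 h3 with h4 | h4
    · exact hε.ne' h4
    · exact hu0 h4
  have hz : G x - μ • x = 0 := by
    by_contra hz0
    have hfz := f_pos hc hf hxC' hz0
    obtain ⟨t, ht, ht'⟩ := hunit (G x) hGx
    obtain ⟨z, hzd⟩ : ∃ z, z = G x - μ • x := ⟨_, rfl⟩
    rw [← hzd] at hxC' hfz
    have ht1 : 0 < t + 1 := by linarith
    have hη : 0 < ε * f z / (t + 1) := by positivity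
    have h1 : G (G x) - (μ + ε * f z / (t + 1)) • G x ∈ C := by
      have e1 : G (G x) = G z + μ • G x := by
        rw [hzd, map_sub, map_smul]
        abel
      have e2 : G (G x) - (μ + ε * f z / (t + 1)) • G x =
          g z + (ε * f z / (t + 1)) • ((t • u - G x) + u) := by
        rw [e1, hGa z]
        have e3 : (ε * f z) • u = (ε * f z / (t + 1)) • ((t + 1) • u) := by
          rw [smul_smul, div_mul_cancel₀ _ ht1.ne']
        rw [e3]
        module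
      rw [e2]
      exact hC.add _ (hg z hxC') _ (hC.smul _ hη.le _ (hC.add _ ht' _ hu))
    have hfG := f_pos hc hf hGx hGx0
    have h2 := hmax' (μ + ε * f z / (t + 1)) (by linarith) _ (hscale _ hGx hGx0) (by
      have e : G ((f (G x))⁻¹ • G x) - (μ + ε * f z / (t + 1)) • ((f (G x))⁻¹ • G x) =
          (f (G x))⁻¹ • (G (G x) - (μ + ε * f z / (t + 1)) • G x) := by
        rw [map_smul]
        module
      rw [e]
      exact hC.smul _ (inv_nonneg.2 hfG.le) _ h1)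
    linarith
  have hz' := sub_eq_zero.1 hz
  refine ⟨x, μ, hxB, ?_, hz'⟩
  rcases hμ0.lt_or_eq with h | h
  · exact h
  · exfalso
    rw [← h, zero_smul] at hz'
    exact hGx0 hz'

/-- the growth of the iterates -/
theorem grow (hC : PC C) {f : (Fin ρ → ℝ) →L[ℝ] ℝ} {u : Fin ρ → ℝ} (hu : u ∈ C)
    (hunit : ∀ x ∈ C, ∃ t : ℝ, 0 ≤ t ∧ t • u - x ∈ C)
    {g : (Fin ρ → ℝ) →ₗ[ℝ] (Fin ρ → ℝ)} (hg : ∀ x ∈ C, g x ∈ C) {ε : ℝ} (hε : 0 < ε)
    {x : Fin ρ → ℝ} {μ : ℝ} (hx : x ∈ BB C f) (hμ : 0 < μ) (h : Ge g f u ε x = μ • x) :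
    ∃ B : ℝ, 0 ≤ B ∧ ∀ l : ℕ, (B * μ ^ l) • u - (g ^ l) u ∈ C := by
  obtain ⟨t, ht, ht'⟩ := hunit x hx.1
  rw [Ge_apply, hx.2, mul_one] at h
  have h1 : ∀ l : ℕ, (μ / ε * μ ^ l) • x - (g ^ l) u ∈ C := by
    intro l
    induction l with
    | zero =>
      have e : (μ / ε * μ ^ 0) • x - (g ^ 0) u = ε⁻¹ • g x := by
        have e1 : g x = μ • x - ε • u := by rw [← h]; abel
        rw [e1, pow_zero, pow_zero, Module.End.one_apply, mul_one, smul_sub, smul_smul, smul_smul,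
          inv_mul_cancel₀ hε.ne', one_smul]
        congr 2
        ring
      rw [e]
      exact hC.smul _ (inv_nonneg.2 hε.le) _ (hg x hx.1)
    | succ l ih =>
      have e : (μ / ε * μ ^ (l + 1)) • x - (g ^ (l + 1)) u =
          g ((μ / ε * μ ^ l) • x - (g ^ l) u) + (μ / ε * μ ^ l * ε) • u := by
        have e1 : μ • x - g x = ε • u := by rw [← h]; abel
        rw [map_sub, map_smul, pow_succ' g l, Module.End.mul_apply]
        have e2 : (μ / ε * μ ^ (l + 1)) • x = (μ / ε * μ ^ l) • (μ • x) := by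
          rw [smul_smul, pow_succ]
          congr 1
          ring
        have e3 : (μ / ε * μ ^ l * ε) • u = (μ / ε * μ ^ l) • (ε • u) := by rw [smul_smul]
        rw [e2, e3, ← e1, smul_sub]
        abel
      rw [e]
      exact hC.add _ (hg _ ih) _ (hC.smul _ (by positivity) u hu)
  refine ⟨μ / ε * t, by positivity, fun l => ?_⟩
  have e : (μ / ε * t * μ ^ l) • u - (g ^ l) u =
      (μ / ε * μ ^ l) • (t • u - x) + ((μ / ε * μ ^ l) • x - (g ^ l) u) := by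
    module
  rw [e]
  exact hC.add _ (hC.smul _ (by positivity) _ ht') _ (h1 l)

end

theorem leafPF : S_PF := by
  intro ρ C hC u hu hu0 hunit g hg
  obtain ⟨f, c, hc, hf⟩ := Pool.Agent.N165.KM.exists_pos_functional hC.closed hC.add hC.smul
    hC.pointed
  have hB := BB_compact hC hc hf
  have hgc : Continuous g := LinearMap.continuous_of_finiteDimensional g
  obtain ⟨M, hM⟩ := hB.exists_bound_of_continuousOn (f := fun x => f (g x))
    (f.continuous.comp hgc).continuousOn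
  have hε : ∀ k : ℕ, (0 : ℝ) < 1 / ((k : ℝ) + 1) := fun k => Nat.one_div_pos_of_nat
  choose x μ hx hμ hxμ using fun k : ℕ => eig hC hc hf hu hu0 hunit hg (hε k)
  have hfu := f_pos hc hf hu hu0
  have hmem : ∀ k, (μ k, x k) ∈ Set.Icc (0 : ℝ) (M + f u) ×ˢ BB C f := by
    intro k
    refine ⟨⟨(hμ k).le, ?_⟩, hx k⟩
    have h1 := congrArg f (hxμ k)
    rw [Ge_apply, map_add, map_smul, map_smul, (hx k).2, smul_eq_mul, smul_eq_mul, mul_one,
      mul_one] at h1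
    have h2 : f (g (x k)) ≤ M := (le_abs_self _).trans (hM _ (hx k))
    have h3 : 1 / ((k : ℝ) + 1) ≤ 1 := by
      rw [div_le_one (by positivity)]
      have : (0 : ℝ) ≤ k := Nat.cast_nonneg k
      linarith
    have h4 : 1 / ((k : ℝ) + 1) * f u ≤ 1 * f u := mul_le_mul_of_nonneg_right h3 hfu.le
    show μ k ≤ M + f u
    linarith
  obtain ⟨⟨m, y⟩, hmy, φ, hφ, hlim⟩ := (isCompact_Icc.prod hB).tendsto_subseq hmem
  have hm0 : 0 ≤ m := hmy.1.1
  have hyB : y ∈ BB C f := hmy.2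
  have hl1 : Tendsto (fun k => μ (φ k)) atTop (𝓝 m) :=
    (continuous_fst.tendsto (m, y)).comp hlim
  have hl2 : Tendsto (fun k => x (φ k)) atTop (𝓝 y) :=
    (continuous_snd.tendsto (m, y)).comp hlim
  have hy0 : y ≠ 0 := by
    intro h0
    have h1 := hyB.2
    rw [h0, map_zero] at h1
    exact zero_ne_one h1
  have heig : g y = m • y := by
    have h1 : Tendsto (fun k => μ (φ k) • x (φ k)) atTop (𝓝 (m • y)) := hl1.smul hl2
    have h2 : Tendsto (fun k => g (x (φ k)) + (1 / ((φ k : ℝ) + 1) * f (x (φ k))) • u) atTop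
        (𝓝 (g y + (0 * f y) • u)) := by
      refine ((hgc.tendsto y).comp hl2).add (Tendsto.smul_const ?_ u)
      refine Tendsto.mul ?_ ((f.continuous.tendsto y).comp hl2)
      exact (tendsto_one_div_add_atTop_nhds_zero_nat (𝕜 := ℝ)).comp hφ.tendsto_atTop
    rw [zero_mul, zero_smul, add_zero] at h2
    have h3 : (fun k => μ (φ k) • x (φ k)) =
        fun k => g (x (φ k)) + (1 / ((φ k : ℝ) + 1) * f (x (φ k))) • u := by
      funext k
      rw [← hxμ (φ k), Ge_apply]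
    rw [h3] at h1
    exact tendsto_nhds_unique h2 h1
  refine ⟨y, hyB.1, hy0, m, hm0, heig, fun κ hκ => ?_⟩
  obtain ⟨k, hk⟩ := (hl1.eventually (gt_mem_nhds hκ)).exists
  obtain ⟨B, hB0, hBl⟩ := grow hC hu hunit hg (hε (φ k)) (hx (φ k)) (hμ (φ k)) (hxμ (φ k))
  refine ⟨B, fun l => ?_⟩
  have e : (B * κ ^ l) • u - (g ^ l) u =
      (B * (κ ^ l - μ (φ k) ^ l)) • u + ((B * μ (φ k) ^ l) • u - (g ^ l) u) := by
    module
  rw [e]
  refine hC.add _ (hC.smul _ (mul_nonneg hB0 (sub_nonneg.2 ?_)) u hu) _ (hBl l)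
  exact pow_le_pow_left₀ (hμ _).le hk.le l

end Pool.Agent.N386.CC
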